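import Pool.Agent.Helper92.GB.Theta
import Pool.Agent.Helper92.CB.UP
import Pool.Agent.Helper92.CB.EX
import Pool.Agent.Helper92.CB.HALF

/-!
# MP_b6b996_nt: what square root cancellation in all correlations gives

For an integer valued function `g` let `θ(g)` be the growth exponent of
`sup_x |∑_{n ≤ N} g(n) e(n x)|`. Over the class of all multiplicative `g` with `g² = μ²` which have
square root cancellation in the sum and in all correlations of order at least two, these also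
twisted by additive characters and uniformly in the shifts (the strongest form of the conjecture of
Chowla), the least value of `θ(g)` is `1/2` and the greatest value is `3/4`.
-/

set_option autoImplicit false

namespace Pool.Agent.Helper92.Reserve.ChowlaBarrier

open Finset

/-- The exponential sum `∑ g(n) e^{2 π i n x}` over `1 ≤ n ≤ N`. -/
noncomputable def F (g : ℕ → ℤ) (N : ℕ) (x : ℝ) : ℂ :=
  ∑ n ∈ Icc 1 N, (g n : ℂ) * Complex.exp (2 * Real.pi * Complex.I * n * x)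

/-- The growth exponent of the sup norm of the exponential sums of `g`. -/
noncomputable def theta (g : ℕ → ℤ) : ℝ :=
  sInf {a : ℝ | 0 ≤ a ∧ ∃ C : ℝ, ∀ N : ℕ, 1 ≤ N → ∀ x : ℝ, x ∈ Set.Icc (0 : ℝ) 1 →
    ‖F g N x‖ ≤ C * (N : ℝ) ^ a}

/-- The correlation sum `∑ g(n + h₁) ⋯ g(n + h_k) e^{2 π i n x}` over `1 ≤ n ≤ M`. -/
noncomputable def corr (g : ℕ → ℤ) {k : ℕ} (h : Fin k → ℕ) (M : ℕ) (x : ℝ) : ℂ :=
  ∑ n ∈ Icc 1 M, (∏ i, (g (n + h i) : ℂ)) * Complex.exp (2 * Real.pi * Complex.I * n * x)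

/-- The multiplicative functions `g` with `g² = μ²` with square root cancellation in the sum and in
all correlations of order `k ≥ 2`, these twisted by `e(n x)`, uniformly in `x`, in the length
`M ≤ N` and in the distinct shifts `0 ≤ h i ≤ N`. -/
def ChowlaClass : Set (ℕ → ℤ) :=
  {g | (∀ m n : ℕ, m.Coprime n → g (m * n) = g m * g n) ∧
    (∀ n : ℕ, g n ^ 2 = ArithmeticFunction.moebius n ^ 2) ∧
    (∀ ε : ℝ, 0 < ε → ∃ C : ℝ, ∀ N : ℕ, 1 ≤ N →
      |((∑ n ∈ Icc 1 N, g n : ℤ) : ℝ)| ≤ C * (N : ℝ) ^ (1 / 2 + ε)) ∧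
    ∀ k : ℕ, 2 ≤ k → ∀ ε : ℝ, 0 < ε → ∃ C : ℝ, ∀ M N : ℕ, M ≤ N → 1 ≤ N →
      ∀ h : Fin k → ℕ, Function.Injective h → (∀ i, h i ≤ N) → ∀ x : ℝ,
        ‖corr g h M x‖ ≤ C * (N : ℝ) ^ (1 / 2 + ε)}

lemma F_eq (g : ℕ → ℤ) (N : ℕ) (x : ℝ) : F g N x = Helper92.GB.F g N x := by
  unfold F Helper92.GB.F Helper92.GB.e
  refine Finset.sum_congr rfl fun n _ => ?_
  congr 2
  push_cast
  ring

lemma theta_eq (g : ℕ → ℤ) : theta g = Helper92.GB.theta g := by
  unfold theta Helper92.GB.theta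
  simp only [F_eq]

lemma corr_eq (g : ℕ → ℤ) {k : ℕ} (h : Fin k → ℕ) (M : ℕ) (x : ℝ) :
    corr g h M x = Helper92.CB.corr g h M x := by
  unfold corr Helper92.CB.corr Helper92.GB.e
  refine Finset.sum_congr rfl fun n _ => ?_
  congr 2
  push_cast
  ring

lemma class_iff (g : ℕ → ℤ) : g ∈ ChowlaClass ↔ Helper92.CB.ChowlaClass g := by
  constructor
  · rintro ⟨h1, h2, h3, h4⟩
    refine ⟨h1, h2, h3, fun k hk ε hε => ?_⟩
    obtain ⟨C, hC⟩ := h4 k hk ε hε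
    refine ⟨C, fun M N hM hN h hh hl x => ?_⟩
    rw [← corr_eq]
    exact hC M N hM hN h hh hl x
  · rintro ⟨h1, h2, h3, h4⟩
    refine ⟨h1, h2, h3, fun k hk ε hε => ?_⟩
    obtain ⟨C, hC⟩ := h4 k hk ε hε
    refine ⟨C, fun M N hM hN h hh hl x => ?_⟩
    rw [corr_eq]
    exact hC M N hM hN h hh hl x

/-- The least growth exponent over the class is `1/2`, the greatest is `3/4`. -/
theorem result :
    IsLeast (theta '' ChowlaClass) (1 / 2) ∧ IsGreatest (theta '' ChowlaClass) (3 / 4) := by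
  have hU : ∀ g : ℕ → ℤ, Helper92.CB.ChowlaClass g → ∃ a : ℝ, 0 ≤ a ∧ ∃ C : ℝ, ∀ N : ℕ, 1 ≤ N →
      ∀ x : ℝ, x ∈ Set.Icc (0 : ℝ) 1 → ‖Helper92.GB.F g N x‖ ≤ C * (N : ℝ) ^ a := by
    intro g hg
    obtain ⟨C, hC⟩ := Helper92.CB.UP g hg 1 one_pos
    exact ⟨3 / 4 + 1, by norm_num, C, fun N hN x _ => hC N hN x⟩
  refine ⟨⟨?_, ?_⟩, ⟨?_, ?_⟩⟩
  · obtain ⟨g, hg, h⟩ := Helper92.CB.HALF
    refine ⟨g, (class_iff g).mpr hg, ?_⟩
    rw [theta_eq]
    exact le_antisymm (Helper92.GB.theta_le g _ (by norm_num) h)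
      (Helper92.GB.half_le_theta g hg.sq (hU g hg))
  · rintro _ ⟨g, hg, rfl⟩
    rw [class_iff] at hg
    rw [theta_eq]
    exact Helper92.GB.half_le_theta g hg.sq (hU g hg)
  · obtain ⟨g, hg, h⟩ := Helper92.CB.EX
    refine ⟨g, (class_iff g).mpr hg, ?_⟩
    rw [theta_eq]
    exact le_antisymm (Helper92.GB.theta_le g _ (by norm_num) (Helper92.CB.UP g hg))
      (Helper92.GB.le_theta g _ (hU g hg) h)
  · rintro _ ⟨g, hg, rfl⟩
    rw [class_iff] at hg
    rw [theta_eq]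
    exact Helper92.GB.theta_le g _ (by norm_num) (Helper92.CB.UP g hg)

end Pool.Agent.Helper92.Reserve.ChowlaBarrier
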