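import Pool.Agent.Helper92.GB.Theta
import Pool.Agent.Helper92.GB.U3
import Pool.Agent.Helper92.GB.EX
import Pool.Agent.Helper92.GB.HALF

/-!
# MP_b6b996_nt: what the Riemann hypothesis bounds and multiplicativity give

For an integer valued function `g` let `θ(g)` be the growth exponent of
`sup_x |∑_{n ≤ N} g(n) e(n x)|`. Over the class of all multiplicative `g` with `g² = μ²` whose sums
twisted by `χ(n) n^{it}` satisfy the square root bounds that the generalised Riemann hypothesis gives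
for `μ`, the least value of `θ(g)` is `1/2` and the greatest value is `3/4`.
-/

set_option autoImplicit false

namespace Pool.Agent.Helper92.Reserve.GRHBarrier

open Finset

/-- The exponential sum `∑ g(n) e^{2 π i n x}` over `1 ≤ n ≤ N`. -/
noncomputable def F (g : ℕ → ℤ) (N : ℕ) (x : ℝ) : ℂ :=
  ∑ n ∈ Icc 1 N, (g n : ℂ) * Complex.exp (2 * Real.pi * Complex.I * n * x)

/-- The growth exponent of the sup norm of the exponential sums of `g`. -/
noncomputable def theta (g : ℕ → ℤ) : ℝ :=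
  sInf {a : ℝ | 0 ≤ a ∧ ∃ C : ℝ, ∀ N : ℕ, 1 ≤ N → ∀ x : ℝ, x ∈ Set.Icc (0 : ℝ) 1 →
    ‖F g N x‖ ≤ C * (N : ℝ) ^ a}

/-- The multiplicative functions `g` with `g² = μ²` whose sums twisted by Dirichlet characters and by
`n^{it}` satisfy the bounds which the generalised Riemann hypothesis gives for the Moebius function. -/
def RHClass : Set (ℕ → ℤ) :=
  {g | (∀ m n : ℕ, m.Coprime n → g (m * n) = g m * g n) ∧
    (∀ n : ℕ, g n ^ 2 = ArithmeticFunction.moebius n ^ 2) ∧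
    ∀ ε : ℝ, 0 < ε → ∃ C : ℝ, ∀ (q : ℕ) (χ : DirichletCharacter ℂ q) (t : ℝ) (N : ℕ),
      1 ≤ q → 1 ≤ N →
      ‖∑ n ∈ Icc 1 N, (g n : ℂ) * χ n * (n : ℂ) ^ ((t : ℂ) * Complex.I)‖ ≤
        C * ((q : ℝ) * (1 + |t|) * N) ^ ε * (N : ℝ) ^ (1 / 2 : ℝ)}

lemma F_eq (g : ℕ → ℤ) (N : ℕ) (x : ℝ) : F g N x = Helper92.GB.F g N x := by
  unfold F Helper92.GB.F Helper92.GB.e
  refine Finset.sum_congr rfl fun n _ => ?_
  congr 2
  push_cast
  ring

lemma theta_eq (g : ℕ → ℤ) : theta g = Helper92.GB.theta g := by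
  unfold theta Helper92.GB.theta
  simp only [F_eq]

lemma class_iff (g : ℕ → ℤ) : g ∈ RHClass ↔ Helper92.GB.GRHClass g := by
  constructor
  · rintro ⟨h1, h2, h3⟩
    exact ⟨h1, h2, h3⟩
  · rintro ⟨h1, h2, h3⟩
    exact ⟨h1, h2, h3⟩

/-- The least growth exponent over the class is `1/2`, the greatest is `3/4`. -/
theorem result : IsLeast (theta '' RHClass) (1 / 2) ∧ IsGreatest (theta '' RHClass) (3 / 4) := by
  have hU : ∀ g : ℕ → ℤ, Helper92.GB.GRHClass g → ∃ a : ℝ, 0 ≤ a ∧ ∃ C : ℝ, ∀ N : ℕ, 1 ≤ N →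
      ∀ x : ℝ, x ∈ Set.Icc (0 : ℝ) 1 → ‖Helper92.GB.F g N x‖ ≤ C * (N : ℝ) ^ a := by
    intro g hg
    obtain ⟨C, hC⟩ := Helper92.GB.U3 g hg 1 one_pos
    exact ⟨3 / 4 + 1, by norm_num, C, fun N hN x _ => hC N hN x⟩
  refine ⟨⟨?_, ?_⟩, ⟨?_, ?_⟩⟩
  · obtain ⟨g, hg, h⟩ := Helper92.GB.HALF
    refine ⟨g, (class_iff g).mpr hg, ?_⟩
    rw [theta_eq]
    exact le_antisymm (Helper92.GB.theta_le g _ (by norm_num) h)
      (Helper92.GB.half_le_theta g hg.sq (hU g hg))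
  · rintro _ ⟨g, hg, rfl⟩
    rw [class_iff] at hg
    rw [theta_eq]
    exact Helper92.GB.half_le_theta g hg.sq (hU g hg)
  · obtain ⟨g, hg, h⟩ := Helper92.GB.EX
    refine ⟨g, (class_iff g).mpr hg, ?_⟩
    rw [theta_eq]
    exact le_antisymm (Helper92.GB.theta_le g _ (by norm_num) (Helper92.GB.U3 g hg))
      (Helper92.GB.le_theta g _ (hU g hg) h)
  · rintro _ ⟨g, hg, rfl⟩
    rw [class_iff] at hg
    rw [theta_eq]
    exact Helper92.GB.theta_le g _ (by norm_num) (Helper92.GB.U3 g hg)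

end Pool.Agent.Helper92.Reserve.GRHBarrier
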